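import Pool.Agent.helper35.FO.Spec

set_option autoImplicit false

namespace Pool.Agent.FO

open Matrix Pool.Agent.H48SL Pool.Agent.UG Pool.Agent.LV

/-- primitive vectors which are not independent generate the same group -/
theorem ACY_ind (v w x y : Fin 3 → ℤ) (hx : x ⬝ᵥ v = 1) (hy : y ⬝ᵥ w = 1) (h : ¬ Indep v w) :
    {u : Fin 3 → ℤ | ∃ a : ℤ, u = a • v} = {u | ∃ a : ℤ, u = a • w} := by
  unfold Indep at h
  push Not at h
  obtain ⟨a, b, h0, h1⟩ := h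
  have e1 : a + b * (x ⬝ᵥ w) = 0 := by
    have := congrArg (fun u => x ⬝ᵥ u) h0
    simp only [dotProduct_add, dotProduct_smul, dotProduct_zero, hx, smul_eq_mul, mul_one] at this
    exact this
  have e2 : a * (y ⬝ᵥ v) + b = 0 := by
    have := congrArg (fun u => y ⬝ᵥ u) h0
    simp only [dotProduct_add, dotProduct_smul, dotProduct_zero, hy, smul_eq_mul, mul_one] at this
    exact this
  have ha : a ≠ 0 := by
    intro ha
    rw [ha, zero_mul, zero_add] at e2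
    exact h1 ha e2
  have hb : b ≠ 0 := by
    intro hb
    rw [hb, zero_mul, add_zero] at e1
    exact ha e1
  have hw : w = (x ⬝ᵥ w) • v := by
    have h2 : b • w = b • ((x ⬝ᵥ w) • v) := by
      rw [smul_smul]
      have : b * (x ⬝ᵥ w) = -a := by linarith
      rw [this, neg_smul]
      exact eq_neg_of_add_eq_zero_right h0
    exact smul_right_injective _ hb h2
  have hv : v = (y ⬝ᵥ v) • w := by
    have h2 : a • v = a • ((y ⬝ᵥ v) • w) := by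
      rw [smul_smul]
      have : a * (y ⬝ᵥ v) = -b := by linarith
      rw [this, neg_smul]
      exact eq_neg_of_add_eq_zero_left h0
    exact smul_right_injective _ ha h2
  ext u
  constructor
  · rintro ⟨c, rfl⟩
    refine ⟨c * (y ⬝ᵥ v), ?_⟩
    rw [mul_smul, ← hv]
  · rintro ⟨c, rfl⟩
    refine ⟨c * (x ⬝ᵥ w), ?_⟩
    rw [mul_smul, ← hw]

open Classical in
/-- a primitive generator -/
noncomputable def ACY_r (A : Set (Fin 3 → ℤ)) : Fin 3 → ℤ :=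
  if h : ∃ v : Fin 3 → ℤ, (∃ x : Fin 3 → ℤ, x ⬝ᵥ v = 1) ∧ A = {w | ∃ a : ℤ, w = a • v} then h.choose else 0

theorem ACY_r_spec (A : Set (Fin 3 → ℤ)) (h : ∃ v : Fin 3 → ℤ, (∃ x : Fin 3 → ℤ, x ⬝ᵥ v = 1) ∧ A = {w | ∃ a : ℤ, w = a • v}) :
    (∃ x : Fin 3 → ℤ, x ⬝ᵥ ACY_r A = 1) ∧ A = {w | ∃ a : ℤ, w = a • ACY_r A} := by
  unfold ACY_r
  rw [dif_pos h]
  exact h.choose_spec

theorem ACY (hREG : REG_stmt) (hWLK : WLK_stmt) (hCYC : CYC_stmt) : ACY_stmt := by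
  intro H hZ hfin E U hU hinj c hc1 hc2
  by_contra hc
  obtain ⟨e, he, hS, hT⟩ := hWLK E (Set (Fin 3 → ℤ)) (Set (Fin 3 → ℤ)) (fun e => FixV (U e)) (fun e => FixR (U e)) c hc hc1 hc2
  -- generators
  have hV : ∀ n, (∃ x : Fin 3 → ℤ, x ⬝ᵥ ACY_r (FixV (U (e n))) = 1) ∧ FixV (U (e n)) = {w | ∃ a : ℤ, w = a • ACY_r (FixV (U (e n)))} := by
    intro n
    obtain ⟨v, f, x, y, hx, hy, -, h1, h2⟩ := hREG (U (e n)) (hU (e n)).2
    exact ACY_r_spec _ ⟨v, ⟨x, hx⟩, Set.ext h1⟩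
  have hR : ∀ n, (∃ x : Fin 3 → ℤ, x ⬝ᵥ ACY_r (FixR (U (e n))) = 1) ∧ FixR (U (e n)) = {w | ∃ a : ℤ, w = a • ACY_r (FixR (U (e n)))} := by
    intro n
    obtain ⟨v, f, x, y, hx, hy, -, h1, h2⟩ := hREG (U (e n)) (hU (e n)).2
    exact ACY_r_spec _ ⟨f, ⟨y, hy⟩, Set.ext h2⟩
  have hVm : ∀ n, ACY_r (FixV (U (e n))) ∈ FixV (U (e n)) := by
    intro n
    rw [(hV n).2]
    refine ⟨1, ?_⟩
    rw [← (hV n).2, one_smul]
  have hRm : ∀ n, ACY_r (FixR (U (e n))) ∈ FixR (U (e n)) := by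
    intro n
    rw [(hR n).2]
    refine ⟨1, ?_⟩
    rw [← (hR n).2, one_smul]
  have hdot : ∀ n, ∀ v ∈ FixV (U (e n)), ∀ f ∈ FixR (U (e n)), f ⬝ᵥ v = 0 := by
    intro n v hv f hf
    obtain ⟨v', f', x, y, -, -, h0, h1, h2⟩ := hREG (U (e n)) (hU (e n)).2
    obtain ⟨a, rfl⟩ := (h1 v).1 hv
    obtain ⟨b, rfl⟩ := (h2 f).1 hf
    rw [smul_dotProduct, dotProduct_smul, h0, smul_zero, smul_zero]
  have hS1 : ∀ i, FixV (U (e (2 * i + 1))) = FixV (U (e (2 * i))) := fun i => (hS i).1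
  have hT1 : ∀ i, FixR (U (e (2 * i + 2))) = FixR (U (e (2 * i + 1))) := fun i => (hT i).1
  refine hfin (hCYC H hZ (fun i => ACY_r (FixV (U (e (2 * i))))) (fun i => ACY_r (FixR (U (e (2 * i)))))
    ?_ ?_ ?_ ?_ ?_ ?_ ?_ ?_)
  · refine (he.image fun x => ACY_r (FixV (U x))).subset ?_
    rintro _ ⟨i, rfl⟩
    exact ⟨e (2 * i), ⟨2 * i, rfl⟩, rfl⟩
  · refine (he.image fun x => ACY_r (FixR (U x))).subset ?_
    rintro _ ⟨i, rfl⟩
    exact ⟨e (2 * i), ⟨2 * i, rfl⟩, rfl⟩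
  · intro i
    by_contra hcon
    obtain ⟨x, hx⟩ := (hV (2 * i)).1
    obtain ⟨y, hy⟩ := (hV (2 * (i + 1))).1
    have h1 := ACY_ind _ _ x y hx hy hcon
    rw [← (hV (2 * i)).2, ← (hV (2 * (i + 1))).2] at h1
    have h2 : FixV (U (e (2 * i + 2))) = FixV (U (e (2 * i + 1))) := by
      rw [hS1 i, h1]
      rfl
    exact (hT i).2 (hinj _ _ h2 (hT1 i))
  · intro i
    by_contra hcon
    obtain ⟨x, hx⟩ := (hR (2 * i)).1
    obtain ⟨y, hy⟩ := (hR (2 * (i + 1))).1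
    have h1 := ACY_ind _ _ x y hx hy hcon
    rw [← (hR (2 * i)).2, ← (hR (2 * (i + 1))).2] at h1
    have h2 : FixR (U (e (2 * i + 1))) = FixR (U (e (2 * i))) := by
      rw [← hT1 i, h1]
      rfl
    exact (hS i).2 (hinj _ _ (hS1 i) h2)
  · intro i
    exact hdot (2 * i) _ (hVm _) _ (hRm _)
  · intro i
    refine hdot (2 * i + 1) _ ?_ _ ?_
    · rw [hS1 i]
      exact hVm _
    · rw [← hT1 i]
      exact hRm (2 * i + 2)
  · intro i
    exact ⟨U (e (2 * i)), (hU _).1, (hU _).2, hVm _, hRm _⟩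
  · intro i
    refine ⟨U (e (2 * i + 1)), (hU _).1, (hU _).2, ?_, ?_⟩
    · rw [hS1 i]
      exact hVm _
    · rw [← hT1 i]
      exact hRm (2 * i + 2)

end Pool.Agent.FO
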