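import Pool.Agent.helper35.FO.Spec

set_option autoImplicit false

namespace Pool.Agent.FO

open Matrix Pool.Agent.H48SL Pool.Agent.UG Pool.Agent.LV

theorem POT : POT_stmt := by
  intro E V W S T hinj γ
  let L : (E →₀ ℚ) →ₗ[ℚ] (V →₀ ℚ) × (W →₀ ℚ) := (Finsupp.lmapDomain ℚ ℚ S).prod (Finsupp.lmapDomain ℚ ℚ T)
  have hker : LinearMap.ker L = ⊥ := by
    rw [LinearMap.ker_eq_bot']
    intro c hc
    have h1 : (c.mapDomain S, c.mapDomain T) = ((0 : V →₀ ℚ), (0 : W →₀ ℚ)) := hc
    exact hinj c (Prod.ext_iff.1 h1).1 (Prod.ext_iff.1 h1).2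
  obtain ⟨r, hr⟩ := LinearMap.exists_leftInverse_of_injective L hker
  let l : (E →₀ ℚ) →ₗ[ℚ] ℚ := Finsupp.linearCombination ℚ γ
  refine ⟨fun v => l (r (Finsupp.single v 1, 0)), fun w => -l (r (0, Finsupp.single w 1)), fun e => ?_⟩
  have h1 : L (Finsupp.single e 1) = (Finsupp.single (S e) 1, Finsupp.single (T e) 1) := by
    show ((Finsupp.single e (1 : ℚ)).mapDomain S, (Finsupp.single e (1 : ℚ)).mapDomain T) = _
    rw [Finsupp.mapDomain_single, Finsupp.mapDomain_single]
  have h2 : r (L (Finsupp.single e 1)) = Finsupp.single e 1 := by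
    have := LinearMap.congr_fun hr (Finsupp.single e 1)
    simpa using this
  have h3 : l (Finsupp.single e 1) = γ e := by
    show Finsupp.linearCombination ℚ γ (Finsupp.single e 1) = γ e
    rw [Finsupp.linearCombination_single, one_smul]
  have h4 : ((Finsupp.single (S e) (1 : ℚ), Finsupp.single (T e) (1 : ℚ)) : (V →₀ ℚ) × (W →₀ ℚ)) =
      (Finsupp.single (S e) 1, 0) + (0, Finsupp.single (T e) 1) := by
    simp
  rw [← h3, ← h2, h1, h4, map_add, map_add]
  ring

end Pool.Agent.FO
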